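import Mathlib
import Pool.Agent.Y355.CD.Core

set_option autoImplicit false

/-!
In every Euclidean space of dimension at least one there is a bounded countable set `P` such that
for every `k` each `k`-fold covering of the whole space by translates of `P` decomposes into `k`
coverings, while for every `m` some `m`-fold covering of a finite set by `2 m - 1` translates of `P`
does not decompose into two coverings.
-/

namespace Pool.Agent.Results.MP_6bd959_co.OptimalSplittings

open Polynomial
open Pool.Agent.Results.MP_6bd959_co.BoundedExample (Good sPoly tPoly good_diff_iff)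
open Pool.Agent.Y355.CD

universe u

/-- The Euclidean space of dimension `n + 1`. -/
abbrev E (n : ℕ) : Type := EuclideanSpace ℝ (Fin (n + 1))

/-- The translate `P + x`. -/
def translate {n : ℕ} (P : Set (E n)) (x : E n) : Set (E n) := {y | ∃ p ∈ P, y = p + x}

/-- The indexed family `(P + t i)` (repetitions allowed) is an `m`-fold covering of `S`:
every point of `S` lies in at least `m` members of the family. -/
def IsFoldCovering {n : ℕ} {ι : Type u} (m : ℕ) (P : Set (E n)) (t : ι → E n) (S : Set (E n)) :
    Prop :=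
  ∀ x ∈ S, (m : ℕ∞) ≤ Set.encard {i : ι | x ∈ translate P (t i)}

/-- The family `(P + t i)` can be partitioned into `k` subfamilies (the classes of a map `c` to
`Fin k`) each of which covers `S`. -/
def Decomposes {n : ℕ} {ι : Type u} (k : ℕ) (P : Set (E n)) (t : ι → E n) (S : Set (E n)) : Prop :=
  ∃ c : ι → Fin k, ∀ j, ∀ x ∈ S, ∃ i, c i = j ∧ x ∈ translate P (t i)

/-- `P` is cover-decomposable. -/
def CoverDecomposable {n : ℕ} (P : Set (E n)) : Prop :=
  ∃ m : ℕ, 2 ≤ m ∧ ∀ (ι : Type u) (t : ι → E n),
    IsFoldCovering m P t Set.univ → Decomposes 2 P t Set.univ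

/-- `P` is totally-cover-decomposable. -/
def TotallyCoverDecomposable {n : ℕ} (P : Set (E n)) : Prop :=
  ∃ m : ℕ, 2 ≤ m ∧ ∀ (S : Set (E n)) (ι : Type u) (t : ι → E n),
    IsFoldCovering m P t S → Decomposes 2 P t S

/-- For every `k ≥ 1` each `k`-fold covering of the whole space by translates of `P` decomposes
into `k` coverings. -/
def OptimallyDecomposable {n : ℕ} (P : Set (E n)) : Prop :=
  ∀ k : ℕ, 1 ≤ k → ∀ (ι : Type u) (t : ι → E n),
    IsFoldCovering k P t Set.univ → Decomposes k P t Set.univ

/-- For every `m ≥ 1` there are a finite set `S` and `2 m - 1` translates of `P` which form an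
`m`-fold covering of `S` that does not decompose into two coverings of `S`. -/
def FinitelyBad {n : ℕ} (P : Set (E n)) : Prop :=
  ∀ m : ℕ, 1 ≤ m → ∃ (S : Set (E n)) (t : Fin (2 * m - 1) → E n), S.Finite ∧
    IsFoldCovering m P t S ∧ ¬ Decomposes 2 P t S

/-- The embedding of `ℤ[X]` into the space: `p` goes to the point `(p(τ), 0, ..., 0)`. -/
noncomputable def emb (n : ℕ) (τ : ℝ) : ℤ[X] →+ E n where
  toFun p := EuclideanSpace.single (0 : Fin (n + 1)) (aeval τ p)
  map_zero' := by simp
  map_add' p q := by
    ext i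
    by_cases h : i = 0
    · subst h; simp
    · simp [h]

lemma emb_injective {n : ℕ} {τ : ℝ} (hinj : Function.Injective (fun p : ℤ[X] => aeval τ p)) :
    Function.Injective (emb n τ) := by
  intro p q h
  apply hinj
  have := congrArg (fun x : E n => x 0) h
  simpa [emb] using this

/-- The set. -/
def theSet (n : ℕ) (τ : ℝ) : Set (E n) := (emb n τ) '' (Good τ)

lemma mem_translate_iff {n : ℕ} (P : Set (E n)) (x y : E n) : y ∈ translate P x ↔ y - x ∈ P := by
  constructor
  · rintro ⟨p, hp, rfl⟩
    simpa using hp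
  · intro h
    exact ⟨y - x, h, by simp⟩

lemma theSet_bounded (n : ℕ) (τ : ℝ) : Bornology.IsBounded (theSet n τ) := by
  rw [Metric.isBounded_iff_subset_closedBall 0]
  refine ⟨1, ?_⟩
  rintro _ ⟨p, ⟨h0, h1, _⟩, rfl⟩
  rw [mem_closedBall_zero_iff]
  have : ‖(emb n τ) p‖ = |aeval τ p| := by
    simp [emb]
  rw [this, abs_of_pos h0]
  exact h1.le

lemma theSet_countable (n : ℕ) (τ : ℝ) : (theSet n τ).Countable := by
  have hcnt : Countable ℤ[X] := by
    rw [← Cardinal.mk_le_aleph0_iff]
    refine (Polynomial.cardinalMk_le_max).trans ?_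
    simp
  exact (Set.to_countable (Good τ)).image _

lemma theSet_optimal {n : ℕ} {τ : ℝ} (hτ0 : 0 < τ) (hτ1 : τ < 1)
    (hinj : Function.Injective (fun p : ℤ[X] => aeval τ p)) :
    OptimallyDecomposable.{u} (theSet n τ) := by
  classical
  intro k hk ι t hcov
  have hemb := emb_injective (n := n) hinj
  set H : AddSubgroup (E n) := (emb n τ).range with hH
  -- for each coset, split the members belonging to it
  have key : ∀ q : E n ⧸ H, ∃ c : ι → Fin k, ∀ x : E n,
      (QuotientAddGroup.mk x : E n ⧸ H) = q →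
      ∀ j, ∃ i, c i = j ∧ x - t i ∈ theSet n τ := by
    intro q
    obtain ⟨g, rfl⟩ := QuotientAddGroup.mk_surjective q
    have hb : ∀ i : {i : ι // t i - g ∈ H}, ∃ p : ℤ[X], emb n τ p = t i.1 - g := fun i => i.2
    choose b hb using hb
    have hmem : ∀ (a : ℤ[X]) (i : ι), (g + emb n τ a) - t i ∈ theSet n τ ↔
        ∃ h : t i - g ∈ H, a - b ⟨i, h⟩ ∈ Good τ := by
      intro a i
      constructor
      · rintro ⟨p, hp, hpe⟩
        have h : t i - g ∈ H := by
          refine ⟨a - p, ?_⟩
          rw [map_sub, hpe]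
          abel
        refine ⟨h, ?_⟩
        have : a - b ⟨i, h⟩ = p := by
          apply hemb
          rw [map_sub, hb ⟨i, h⟩, hpe]
          abel
        rwa [this]
      · rintro ⟨h, hg⟩
        refine ⟨_, hg, ?_⟩
        rw [map_sub, hb ⟨i, h⟩]
        abel
    have hc2 : ∀ a : ℤ[X], (k : ℕ∞) ≤ Set.encard {i | a - b i ∈ Good τ} := by
      intro a
      have h := hcov (g + emb n τ a) (Set.mem_univ _)
      have hset : {i : ι | g + emb n τ a ∈ translate (theSet n τ) (t i)} =
          Subtype.val '' {i | a - b i ∈ Good τ} := by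
        ext i
        simp only [Set.mem_ofPred_eq, mem_translate_iff, hmem, Set.mem_image, Subtype.exists,
          exists_and_right, exists_eq_right]
      rw [hset, Subtype.val_injective.encard_image] at h
      exact h
    obtain ⟨c, hc⟩ := coset_split_k hτ0 hτ1 b hinj hk hc2
    refine ⟨fun i => if h : t i - g ∈ H then c ⟨i, h⟩ else ⟨0, hk⟩, fun x hx j => ?_⟩
    have hx' : x - g ∈ H := by
      rw [eq_comm, QuotientAddGroup.eq] at hx
      rwa [neg_add_eq_sub] at hx
    obtain ⟨a, ha⟩ := hx'
    have hxa : x = g + emb n τ a := by rw [ha]; abel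
    subst hxa
    obtain ⟨i, hij, hi⟩ := hc a j
    refine ⟨i.1, ?_, (hmem a i.1).2 ⟨i.2, hi⟩⟩
    beta_reduce
    rw [dif_pos i.2]
    exact hij
  choose c hc using key
  have hcos : ∀ (x : E n) (i : ι), x - t i ∈ theSet n τ →
      (QuotientAddGroup.mk x : E n ⧸ H) = QuotientAddGroup.mk (t i) := by
    rintro x i ⟨p, _, hp⟩
    rw [eq_comm, QuotientAddGroup.eq, neg_add_eq_sub]
    exact ⟨p, hp⟩
  refine ⟨fun i => c (QuotientAddGroup.mk (t i)) i, fun j x _ => ?_⟩
  obtain ⟨i, hij, hi⟩ := hc _ x rfl j
  refine ⟨i, ?_, (mem_translate_iff _ _ _).2 hi⟩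
  beta_reduce
  rw [← hcos x i hi]
  exact hij

lemma theSet_bad {n : ℕ} {τ : ℝ} (hτ0 : 0 < τ) (hτ1 : τ < 1)
    (hinj : Function.Injective (fun p : ℤ[X] => aeval τ p)) : FinitelyBad (theSet n τ) := by
  classical
  intro m hm
  obtain ⟨N, hN⟩ : ∃ N : ℕ, τ ^ N * (1 + 2 * (m : ℝ)) < 1 := by
    obtain ⟨N, hN⟩ := exists_pow_lt_of_lt_one
      (show (0 : ℝ) < 1 / (1 + 2 * (m : ℝ)) by positivity) hτ1
    exact ⟨N, (lt_div_iff₀ (by positivity)).1 hN⟩
  have hemb := emb_injective (n := n) hinj
  -- the family
  let t : Fin (2 * m - 1) → E n := fun i => emb n τ (tPoly N i)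
  let S : Set (E n) := (fun e : Finset ℕ => emb n τ (sPoly N e)) ''
    {e | e ⊆ Finset.range (2 * m - 1) ∧ e.card = m}
  have hSfin : S.Finite := by
    refine Set.Finite.image _ (Set.Finite.subset (Finset.finite_toSet
      (Finset.range (2 * m - 1)).powerset) ?_)
    rintro e ⟨he, _⟩
    exact Finset.mem_coe.2 (Finset.mem_powerset.2 he)
  have hmem : ∀ (e : Finset ℕ), e.card = m → ∀ i : Fin (2 * m - 1),
      (emb n τ (sPoly N e) ∈ translate (theSet n τ) (t i) ↔ (i : ℕ) ∈ e) := by
    intro e he i
    rw [mem_translate_iff, ← good_diff_iff hτ0 hτ1 hN he.le, ← map_sub]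
    constructor
    · rintro ⟨p, hp, hpe⟩
      rwa [← hemb hpe]
    · intro hg
      exact ⟨_, hg, rfl⟩
  refine ⟨S, t, hSfin, ?_, ?_⟩
  · rintro _ ⟨e, ⟨he, hec⟩, rfl⟩
    have hsub : (fun j : {j // j ∈ e} => (⟨j.1, Finset.mem_range.1 (he j.2)⟩ :
        Fin (2 * m - 1))) '' Set.univ ⊆
        {i | emb n τ (sPoly N e) ∈ translate (theSet n τ) (t i)} := by
      rintro _ ⟨j, _, rfl⟩
      exact (hmem e hec _).2 j.2
    refine le_trans ?_ (Set.encard_le_encard hsub)
    rw [Function.Injective.encard_image]
    · rw [Set.encard_univ, ENat.card_eq_coe_fintype_card, Fintype.card_coe, hec]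
    · intro x y hxy
      have := congrArg (fun z : Fin (2 * m - 1) => (z : ℕ)) hxy
      exact Subtype.ext this
  · rintro ⟨c, hc⟩
    -- no colour is used at least `m` times
    have hbig : ∀ j j' : Fin 2, j ≠ j' → m ≤ (Finset.univ.filter (fun i => c i = j)).card →
        False := by
      intro j j' hjj hcard
      set Fs : Finset ℕ := (Finset.univ.filter (fun i => c i = j)).image
        (fun i : Fin (2 * m - 1) => (i : ℕ)) with hF
      have hFcard : m ≤ Fs.card := by
        rw [hF, Finset.card_image_of_injective _ Fin.val_injective]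
        exact hcard
      obtain ⟨e, heF, hec⟩ := Finset.exists_subset_card_eq hFcard
      have he : e ⊆ Finset.range (2 * m - 1) := by
        intro x hx
        obtain ⟨i, _, rfl⟩ := Finset.mem_image.1 (heF hx)
        exact Finset.mem_range.2 i.2
      obtain ⟨i, hi1, hi2⟩ := hc j' _ ⟨e, ⟨he, hec⟩, rfl⟩
      have hie := (hmem e hec i).1 hi2
      obtain ⟨i', hi', hii'⟩ := Finset.mem_image.1 (heF hie)
      have h3 : i' = i := Fin.val_injective hii'
      subst h3
      have h4 := (Finset.mem_filter.1 hi').2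
      exact hjj (h4.symm.trans hi1)
    have hsum : (Finset.univ.filter (fun i => c i = 0)).card +
        (Finset.univ.filter (fun i => c i = 1)).card = 2 * m - 1 := by
      have h1 : (Finset.univ.filter (fun i => c i = 1)) =
          (Finset.univ.filter (fun i => ¬ c i = 0)) := by
        ext i
        simp only [Finset.mem_filter, Finset.mem_univ, true_and]
        constructor
        · intro h h'; rw [h] at h'; exact absurd h' (by decide)
        · intro h
          have : ∀ z : Fin 2, z ≠ 0 → z = 1 := by decide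
          exact this _ h
      rw [h1, Finset.card_filter_add_card_filter_not, Finset.card_univ, Fintype.card_fin]
    rcases Nat.lt_or_ge (Finset.univ.filter (fun i => c i = 0)).card m with hlt | hge
    · exact hbig 1 0 (by decide) (by omega)
    · exact hbig 0 1 (by decide) hge

lemma not_totally {n : ℕ} {P : Set (E n)} (h : FinitelyBad P) :
    ¬ TotallyCoverDecomposable.{u} P := by
  rintro ⟨m, hm, hP⟩
  obtain ⟨S, t, _, h1, h2⟩ := h m (by omega)
  apply h2
  obtain ⟨c, hc⟩ := hP S (ULift.{u} (Fin (2 * m - 1))) (fun i => t i.down) (by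
    intro x hx
    refine (h1 x hx).trans ?_
    have : {i : ULift.{u} (Fin (2 * m - 1)) | x ∈ translate P (t i.down)} =
        ULift.up '' {i | x ∈ translate P (t i)} := by
      ext i
      constructor
      · intro hi; exact ⟨i.down, hi, rfl⟩
      · rintro ⟨j, hj, rfl⟩; exact hj
    rw [this, Function.Injective.encard_image ULift.up_injective])
  refine ⟨fun i => c ⟨i⟩, fun j x hx => ?_⟩
  obtain ⟨i, hi1, hi2⟩ := hc j x hx
  exact ⟨i.down, hi1, hi2⟩

/-- In the Euclidean space of every dimension `n + 1 ≥ 1` there is a bounded countable set `P` such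
that for every `k ≥ 1` each `k`-fold covering of the whole space by translates of `P` decomposes
into `k` coverings, and such that for every `m ≥ 1` there is an `m`-fold covering of a finite set by
`2 m - 1` translates of `P` which does not decompose into two coverings of this set. In particular
`P` is cover-decomposable, but not totally-cover-decomposable. -/
theorem result (n : ℕ) : ∃ P : Set (E n), Bornology.IsBounded P ∧ P.Countable ∧
    OptimallyDecomposable.{u} P ∧ FinitelyBad P ∧
    CoverDecomposable.{u} P ∧ ¬ TotallyCoverDecomposable.{u} P := by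
  obtain ⟨τ, hτ, htr⟩ : ∃ τ : ℝ, τ ∈ Set.Ioo (0 : ℝ) 1 ∧ Transcendental ℤ τ := by
    by_contra hcon
    push Not at hcon
    have hsub : Set.Ioo (0 : ℝ) 1 ⊆ {x : ℝ | IsAlgebraic ℤ x} := by
      intro x hx
      by_contra hx'
      exact hcon x hx hx'
    have h2 := (Algebraic.countable ℤ ℝ).mono hsub
    rw [Cardinal.Real.Ioo_countable_iff] at h2
    linarith
  have hinj : Function.Injective (fun p : ℤ[X] => aeval τ p) :=
    transcendental_iff_injective.1 htr
  have h1 := theSet_optimal (n := n) hτ.1 hτ.2 hinj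
  have h2 := theSet_bad (n := n) hτ.1 hτ.2 hinj
  exact ⟨theSet n τ, theSet_bounded n τ, theSet_countable n τ, h1, h2,
    ⟨2, le_rfl, h1 2 (by norm_num)⟩, not_totally h2⟩

end Pool.Agent.Results.MP_6bd959_co.OptimalSplittings
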